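import Pool.Agent.Helper25_CN2.Stmts

/-! Squad CN2, module H_I3 (T16): the rank modulo 2. -/

noncomputable section

namespace Pool.Agent.CN2.H20

open Pool.Agent.H25Cong Pool.Agent.CON Pool.Agent.CN2

section

variable {M : Type} [AddCommGroup M] {b : M → M → ℤ}

theorem b_add_right (h : PD b) (x y z : M) : b x (y + z) = b x y + b x z := by
  rw [h.symm, h.add_left, h.symm y, h.symm z]

theorem b_zero_left (h : PD b) (z : M) : b 0 z = 0 := by
  have := h.add_left 0 0 z
  rw [add_zero] at this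
  omega

theorem b_neg_left (h : PD b) (x z : M) : b (-x) z = - b x z := by
  have := h.add_left x (-x) z
  rw [add_neg_cancel, b_zero_left h] at this
  omega

theorem b_zero_right (h : PD b) (z : M) : b z 0 = 0 := by rw [h.symm, b_zero_left h]

theorem b_neg_right (h : PD b) (x z : M) : b x (-z) = - b x z := by
  rw [h.symm, b_neg_left h, h.symm]

theorem b_smul_left (h : PD b) (k : ℤ) (x z : M) : b (k • x) z = k * b x z := by
  let f : M →+ ℤ := ⟨⟨fun x => b x z, b_zero_left h z⟩, fun x y => h.add_left x y z⟩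
  have := map_zsmul f k x
  rw [smul_eq_mul] at this
  exact this

theorem b_sum_left (h : PD b) {ι : Type} (s : Finset ι) (f : ι → M) (z : M) :
    b (∑ i ∈ s, f i) z = ∑ i ∈ s, b (f i) z := by
  let g : M →+ ℤ := ⟨⟨fun x => b x z, b_zero_left h z⟩, fun x y => h.add_left x y z⟩
  exact map_sum g f s

theorem even_right (h : PD b) {D : Set M} {x : M} (hx : ∀ y ∈ D, (2 : ℤ) ∣ b x y) :
    ∀ y ∈ AddSubgroup.closure D, (2 : ℤ) ∣ b x y := by
  intro y hy
  induction hy using AddSubgroup.closure_induction with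
  | mem y hy => exact hx y hy
  | zero => rw [b_zero_right h]; exact dvd_zero _
  | add y z _ _ h1 h2 => rw [b_add_right h]; exact dvd_add h1 h2
  | neg y _ h1 => rw [b_neg_right h]; exact (dvd_neg).mpr h1

/-- two functionals modulo 2 are enough -/
theorem two_span (h : PD b) {D : Set M} (hD : ∀ x : M, x ∈ AddSubgroup.closure D) (α β : M)
    (hx : ∀ x ∈ D, ∃ i j : ℤ, ∀ y ∈ D, (2 : ℤ) ∣ b (x - i • α - j • β) y) (x : M) :
    ∃ i j : ℤ, ∀ y : M, (2 : ℤ) ∣ b x y - i * b α y - j * b β y := by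
  have hx' : x ∈ AddSubgroup.closure D := hD x
  induction hx' using AddSubgroup.closure_induction with
  | mem x hx1 =>
    obtain ⟨i, j, hij⟩ := hx x hx1
    refine ⟨i, j, fun y => ?_⟩
    have := even_right h hij y (hD y)
    rw [sub_eq_add_neg, sub_eq_add_neg, h.add_left, h.add_left, b_neg_left h, b_neg_left h,
      b_smul_left h, b_smul_left h] at this
    exact this
  | zero =>
    refine ⟨0, 0, fun y => ?_⟩
    rw [b_zero_left h]; simp
  | add x z _ _ h1 h2 =>
    obtain ⟨i, j, hij⟩ := h1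
    obtain ⟨i', j', hij'⟩ := h2
    refine ⟨i + i', j + j', fun y => ?_⟩
    have := dvd_add (hij y) (hij' y)
    rw [h.add_left]
    have e : b x y + b z y - (i + i') * b α y - (j + j') * b β y =
      b x y - i * b α y - j * b β y + (b z y - i' * b α y - j' * b β y) := by ring
    rw [e]; exact this
  | neg x _ h1 =>
    obtain ⟨i, j, hij⟩ := h1
    refine ⟨-i, -j, fun y => ?_⟩
    have := (dvd_neg).mpr (hij y)
    rw [b_neg_left h]
    have e : -b x y - -i * b α y - -j * b β y = -(b x y - i * b α y - j * b β y) := by ring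
    rw [e]; exact this

theorem not_ind3 (h : PD b) (α β : M)
    (hx : ∀ x : M, ∃ i j : ℤ, ∀ y : M, (2 : ℤ) ∣ b x y - i * b α y - j * b β y) :
    ¬ IndA b ⊤ 2 3 := by
  rintro ⟨c, _, hc⟩
  choose i j hij using fun l => hx (c l)
  -- a nontrivial relation modulo 2
  have key : ∃ z : Fin 3 → ℤ, (2 : ℤ) ∣ ∑ l, z l * i l ∧ (2 : ℤ) ∣ ∑ l, z l * j l ∧
      ∃ l, ¬ (2 : ℤ) ∣ z l := by
    have hfin : ∀ a a' b b' c c' : ZMod 2, ∃ z : Fin 3 → Fin 2,
        (z 0).val * a + (z 1).val * b + (z 2).val * c = 0 ∧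
        (z 0).val * a' + (z 1).val * b' + (z 2).val * c' = 0 ∧ z ≠ 0 := by
      decide
    obtain ⟨z, h1, h2, h3⟩ := hfin (i 0) (j 0) (i 1) (j 1) (i 2) (j 2)
    refine ⟨fun l => ((z l).val : ℤ), ?_, ?_, ?_⟩
    · refine (ZMod.intCast_zmod_eq_zero_iff_dvd _ 2).mp ?_
      rw [Fin.sum_univ_three]
      push_cast
      exact h1
    · refine (ZMod.intCast_zmod_eq_zero_iff_dvd _ 2).mp ?_
      rw [Fin.sum_univ_three]
      push_cast
      exact h2
    · by_contra hcon
      push Not at hcon
      apply h3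
      funext l
      have h4 := hcon l
      have h5 := (z l).isLt
      apply Fin.ext
      rw [Pi.zero_apply, Fin.val_zero]
      omega
  obtain ⟨z, h1, h2, l, hl⟩ := key
  refine hl (hc z (fun y _ => ?_) l)
  rw [b_sum_left h]
  have h3 : ∀ l, b (z l • c l) y = z l * (b (c l) y - i l * b α y - j l * b β y) +
      (z l * i l) * b α y + (z l * j l) * b β y := by
    intro l
    rw [b_smul_left h]; ring
  rw [Finset.sum_congr rfl fun l _ => h3 l, Finset.sum_add_distrib, Finset.sum_add_distrib,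
    ← Finset.sum_mul, ← Finset.sum_mul]
  refine dvd_add (dvd_add (Finset.dvd_sum fun l _ => (hij l y).mul_left _) (h1.mul_right _))
    (h2.mul_right _)

end

theorem h_i3 (_ : E_VAL) (hT : E_TWO2) (hN : T_NCAP) : H_I3 := by
  intro M _ b k C s τ hb hC hbig hmid
  -- components which are not middle and odd are even
  have hev : ∀ i, (¬ (2 : ℤ) ∣ s i → ¬ (τ i).mid) → ∀ x ∈ C i, ∀ y ∈ ⋃ l, C l,
      (2 : ℤ) ∣ b x y := by
    intro i hi x hx y hy
    obtain ⟨l, hl⟩ := Set.mem_iUnion.mp hy
    by_cases hil : i = l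
    swap
    · rw [hC.orth i l hil x hx y hl]; exact dvd_zero _
    subst hil
    by_cases hs : (2 : ℤ) ∣ s i
    · exact hs.trans ((hC.irr i).dvd x hx y hl)
    have h1 := hbig i hs
    have h2 := hi hs
    have h3 := hC.ty i
    revert h1 h2 h3
    generalize τ i = T
    intro h1 h2 h3
    cases T with
    | A m =>
      obtain ⟨hm, v, hv, hv'⟩ := h3
      simp only [Ty.big, Ty.mid] at h1 h2
      have : m = 1 := by omega
      subst this
      have hall : ∀ z ∈ C i, z = v 0 ∨ z = - v 0 := by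
        intro z hz
        rcases hv' z hz with ⟨a, ha⟩ | ⟨a, a', haa, _⟩
        · rw [Subsingleton.elim a 0] at ha; exact ha
        · exact absurd (Subsingleton.elim a a') haa
      have hn := (hC.irr i).norm (v 0) (hv.1 0)
      have h4 : (2 : ℤ) ∣ b (v 0) (v 0) := ⟨s i, hn⟩
      rcases hall x hx with rfl | rfl <;> rcases hall y hl with rfl | rfl
      · exact h4
      · rw [b_neg_right hb]; exact (dvd_neg).mpr h4
      · rw [b_neg_left hb]; exact (dvd_neg).mpr h4
      · rw [b_neg_left hb, b_neg_right hb, neg_neg]; exact h4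
    | D m =>
      obtain ⟨hm, _⟩ := h3
      simp only [Ty.big, Ty.mid] at h1 h2
      omega
    | E m => exact absurd trivial h1
  by_cases h0 : ∃ i, ¬ (2 : ℤ) ∣ s i ∧ (τ i).mid
  · obtain ⟨i0, hs, hm⟩ := h0
    obtain ⟨α, hα, β, hβ, hab⟩ := hT M b (C i0) (s i0) hb (hC.irr i0) hs
      (hN M b (C i0) (s i0) (τ i0) hb (hC.irr i0) hs (hC.ty i0) hm)
    refine not_ind3 hb α β (two_span hb hC.gen α β fun x hx => ?_)
    obtain ⟨i, hi⟩ := Set.mem_iUnion.mp hx
    by_cases hii : i = i0
    · subst hii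
      obtain ⟨a, c, hac⟩ := hab x (AddSubgroup.subset_closure hi)
      refine ⟨a, c, fun y hy => ?_⟩
      obtain ⟨l, hl⟩ := Set.mem_iUnion.mp hy
      by_cases hil : i = l
      · subst hil
        exact hac y (AddSubgroup.subset_closure hl)
      · rw [sub_eq_add_neg, sub_eq_add_neg, hb.add_left, hb.add_left, b_neg_left hb,
          b_neg_left hb, b_smul_left hb, b_smul_left hb, hC.orth i l hil x hi y hl,
          hC.orth i l hil α hα y hl, hC.orth i l hil β hβ y hl]
        simp
    · refine ⟨0, 0, fun y hy => ?_⟩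
      rw [zero_smul, zero_smul, sub_zero, sub_zero]
      refine hev i (fun h1 h2 => ?_) x hi y hy
      exact hmid i i0 hii h1 h2 hs hm
  · push Not at h0
    refine not_ind3 hb 0 0 (two_span hb hC.gen 0 0 fun x hx => ⟨0, 0, fun y hy => ?_⟩)
    obtain ⟨i, hi⟩ := Set.mem_iUnion.mp hx
    rw [zero_smul, sub_zero, sub_zero]
    exact hev i (h0 i) x hi y hy

end Pool.Agent.CN2.H20
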